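import Mathlib
import Pool.Agent.Y666.SP.Stm

/-! # Project SP, block ZAG: posets with finite incomparability sets have spines -/

set_option autoImplicit false

namespace Pool.Agent.Y30.SP

open Pool.Agent.Y666.SP Filter

/-- The finite case: a rank function and a chain meeting all ranks. -/
theorem fin_case {α : Type} [PartialOrder α] (T : Finset α) :
    ∃ (r : α → ℕ) (C : Finset α), C ⊆ T ∧ IsChain (· ≤ ·) (C : Set α) ∧
      (∀ x ∈ T, ∀ y ∈ T, x < y → r x < r y) ∧ ∀ x ∈ T, ∃ c ∈ C, r c = r x := by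
  classical
  rcases T.eq_empty_or_nonempty with rfl | hT
  · exact ⟨fun _ => 0, ∅, subset_rfl, by simp, by simp, by simp⟩
  -- chains of `T` below `x`
  let F : α → Finset (Finset α) := fun x =>
    ((T.filter (· < x)).powerset).filter (fun S => IsChain (· ≤ ·) (S : Set α))
  have hFmem : ∀ x S, S ∈ F x ↔ ((∀ y ∈ S, y ∈ T ∧ y < x) ∧ IsChain (· ≤ ·) (S : Set α)) := by
    intro x S
    simp only [F, Finset.mem_filter, Finset.mem_powerset]
    constructor
    · rintro ⟨h1, h2⟩
      exact ⟨fun y hy => by simpa using h1 hy, h2⟩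
    · rintro ⟨h1, h2⟩
      exact ⟨fun y hy => by simpa using h1 y hy, h2⟩
  let r : α → ℕ := fun x => (F x).sup Finset.card
  have hex : ∀ x, ∃ S ∈ F x, S.card = r x := by
    intro x
    have hne : (F x).Nonempty := ⟨∅, by rw [hFmem]; simp⟩
    obtain ⟨S, hS, h⟩ := Finset.exists_mem_eq_sup (F x) hne Finset.card
    exact ⟨S, hS, h.symm⟩
  have hlt : ∀ x ∈ T, ∀ y, x < y → r x < r y := by
    intro x hx y hxy
    obtain ⟨S, hS, hc⟩ := hex x
    rw [hFmem] at hS
    have hxS : x ∉ S := fun h => lt_irrefl _ (hS.1 x h).2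
    have : insert x S ∈ F y := by
      rw [hFmem]
      refine ⟨?_, ?_⟩
      · intro z hz
        rcases Finset.mem_insert.1 hz with rfl | hz
        · exact ⟨hx, hxy⟩
        · exact ⟨(hS.1 z hz).1, (hS.1 z hz).2.trans hxy⟩
      · rw [Finset.coe_insert]
        exact hS.2.insert fun b hb _ => Or.inr (hS.1 b hb).2.le
    have h2 : (insert x S).card ≤ r y := Finset.le_sup (f := Finset.card) this
    rw [Finset.card_insert_of_notMem hxS] at h2
    omega
  obtain ⟨x0, hx0, hmax⟩ := Finset.exists_max_image T r hT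
  obtain ⟨S, hS, hc⟩ := hex x0
  rw [hFmem] at hS
  have hxS : x0 ∉ S := fun h => lt_irrefl _ (hS.1 x0 h).2
  have hCT : insert x0 S ⊆ T := by
    intro z hz
    rcases Finset.mem_insert.1 hz with rfl | hz
    · exact hx0
    · exact (hS.1 z hz).1
  have hch : IsChain (· ≤ ·) ((insert x0 S : Finset α) : Set α) := by
    rw [Finset.coe_insert]
    exact hS.2.insert fun b hb _ => Or.inr (hS.1 b hb).2.le
  refine ⟨r, insert x0 S, hCT, hch, fun x hx y _ h => hlt x hx y h, ?_⟩
  -- the ranks are injective on the chain, hence all of `0, ..., r x0`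
  have hinj : Set.InjOn r ((insert x0 S : Finset α) : Set α) := by
    intro a ha b hb hab
    by_contra hne
    rcases hch ha hb hne with h | h
    · exact absurd (hlt a (hCT ha) b (lt_of_le_of_ne h hne)) (by omega)
    · exact absurd (hlt b (hCT hb) a (lt_of_le_of_ne h (Ne.symm hne))) (by omega)
  have himg : (insert x0 S).image r = Finset.range (r x0 + 1) := by
    apply Finset.eq_of_subset_of_card_le
    · intro n hn
      obtain ⟨a, ha, rfl⟩ := Finset.mem_image.1 hn
      exact Finset.mem_range.2 (Nat.lt_succ_of_le (hmax a (hCT ha)))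
    · rw [Finset.card_image_of_injOn hinj, Finset.card_insert_of_notMem hxS, hc]
      simp
  intro x hx
  have : r x ∈ (insert x0 S).image r := by
    rw [himg]
    exact Finset.mem_range.2 (Nat.lt_succ_of_le (hmax x hx))
  obtain ⟨c, hc1, hc2⟩ := Finset.mem_image.1 this
  exact ⟨c, hc1, hc2⟩

/-- ZAG. -/
theorem t_ZAG : S_ZAG := by
  intro α _ hfin
  classical
  choose r C hCT hch hlt hall using fun T : Finset α => fin_case T
  let U : Ultrafilter (Finset α) := Ultrafilter.of (atTop : Filter (Finset α))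
  have hU : ∀ x : α, ∀ᶠ T in (U : Filter (Finset α)), x ∈ T := by
    intro x
    have h : ∀ᶠ T in (atTop : Filter (Finset α)), x ∈ T := by
      filter_upwards [eventually_ge_atTop ({x} : Finset α)] with T hT
      exact hT (Finset.mem_singleton_self x)
    exact (Ultrafilter.of_le (atTop : Filter (Finset α))) h
  let D : Set α := {x | ∀ᶠ T in (U : Filter (Finset α)), x ∈ C T}
  have hne : (U : Filter (Finset α)).NeBot := U.neBot
  have hDch : IsChain (· ≤ ·) D := by
    intro a ha b hb hab
    obtain ⟨T, h1, h2⟩ := (Filter.Eventually.and (show ∀ᶠ T in (U : Filter (Finset α)), a ∈ C T from ha)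
      (show ∀ᶠ T in (U : Filter (Finset α)), b ∈ C T from hb)).exists
    exact hch T h1 h2 hab
  have hsel : ∀ x : α, ∃ c ∈ D, ∀ᶠ T in (U : Filter (Finset α)), r T c = r T x := by
    intro x
    have hF : (insert x {y | ¬ x ≤ y ∧ ¬ y ≤ x}).Finite := (hfin x).insert x
    have h1 : ∀ᶠ T in (U : Filter (Finset α)), ∃ c ∈ insert x {y | ¬ x ≤ y ∧ ¬ y ≤ x},
        (c ∈ C T ∧ r T c = r T x) := by
      filter_upwards [hU x] with T hT
      obtain ⟨c, hc, hcr⟩ := hall T x hT
      refine ⟨c, ?_, hc, hcr⟩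
      by_cases hcx : c = x
      · exact Or.inl hcx
      · right
        constructor
        · intro h
          have := hlt T x hT c (hCT T hc) (lt_of_le_of_ne h (Ne.symm hcx))
          omega
        · intro h
          have := hlt T c (hCT T hc) x hT (lt_of_le_of_ne h hcx)
          omega
    rw [Ultrafilter.eventually_exists_mem_iff hF] at h1
    obtain ⟨c, _, hc⟩ := h1
    exact ⟨c, hc.mono fun T h => h.1, hc.mono fun T h => h.2⟩
  choose f hfD hfr using hsel
  refine ⟨D, Set.subset_univ _, hDch, f, fun x _ => hfD x, ?_, ?_⟩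
  · intro c hc
    obtain ⟨T, ⟨h1, h2⟩, h3⟩ := ((Filter.Eventually.and
      (show ∀ᶠ T in (U : Filter (Finset α)), c ∈ C T from hc)
      (show ∀ᶠ T in (U : Filter (Finset α)), f c ∈ C T from hfD c)).and (hfr c)).exists
    by_contra hne'
    rcases hch T h2 h1 hne' with h | h
    · have := hlt T _ (hCT T h2) _ (hCT T h1) (lt_of_le_of_ne h hne')
      omega
    · have := hlt T _ (hCT T h1) _ (hCT T h2) (lt_of_le_of_ne h (Ne.symm hne'))
      omega
  · intro x _ y _ hxy hlt'
    obtain ⟨T, ⟨⟨h1, h2⟩, h3⟩, h4⟩ := (((hU x).and (hU y)).and (hfr x)).and (hfr y) |>.exists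
    have := hlt T x h1 y h2 hlt'
    rw [hxy] at h3
    omega

end Pool.Agent.Y30.SP
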